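import Pool.Agent.W443.DX.Stm4

/-!
Helper file (project DX of helper443): a parametrised curve `(a, b)` with `X = h(a, b)` which
satisfies `g(a, b) = 0` has `deg a ≤ deg_Y g`.
-/

set_option autoImplicit false

open MvPolynomial

namespace Pool.Agent.W352.DX.DGC

open IntermediateField

theorem main : Pool.Agent.W443.DX.S_DGC := by
  intro κ _ a b h g hX hg h0
  by_cases hm : a.natDegree = 0
  · omega
  set f : RatFunc κ := algebraMap (Polynomial κ) (RatFunc κ) a with hf
  set β : RatFunc κ := algebraMap (Polynomial κ) (RatFunc κ) b with hβ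
  have hnc : ¬ ∃ c, f = RatFunc.C c := by
    rintro ⟨c, hc⟩
    apply hm
    have : a = Polynomial.C c := by
      apply RatFunc.algebraMap_injective κ
      rw [← hf, hc, RatFunc.algebraMap_C]
    rw [this, Polynomial.natDegree_C]
  have hfr : Module.finrank κ⟮f⟯ (RatFunc κ) = a.natDegree := by
    rw [RatFunc.finrank_eq_max_natDegree, hf, RatFunc.num_algebraMap, RatFunc.denom_algebraMap]
    simp
  have htr : Transcendental κ f := RatFunc.transcendental_of_ne_C f hnc
  -- evaluation in the field
  have hev : ∀ q : MvPolynomial (Fin 2) κ,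
      aeval ![f, β] q = algebraMap (Polynomial κ) (RatFunc κ) (aeval ![a, b] q) := by
    intro q
    have h1 : (Algebra.algHom κ (Polynomial κ) (RatFunc κ)).comp (aeval ![a, b]) =
        aeval ![f, β] := by
      apply MvPolynomial.algHom_ext
      intro i
      fin_cases i
      · simp only [AlgHom.comp_apply, aeval_X]
        rfl
      · simp only [AlgHom.comp_apply, aeval_X]
        rfl
    rw [← h1]
    rfl
  -- the generator
  let fE : κ⟮f⟯ := AdjoinSimple.gen κ f
  have hfE : algebraMap κ⟮f⟯ (RatFunc κ) fE = f := AdjoinSimple.algebraMap_gen κ f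
  have htrE : Transcendental κ fE := by
    intro hal
    apply htr
    rw [← hfE]
    exact hal.algebraMap
  let ψ : MvPolynomial (Fin 1) κ →ₐ[κ] κ⟮f⟯ := aeval (fun _ => fE)
  have hψ : Function.Injective ψ := by
    have := (algebraicIndependent_unique_type_iff (R := κ) (x := fun _ : Fin 1 => fE)).2 htrE
    exact this
  let g₂ : MvPolynomial (Fin 2) κ := rename (Equiv.swap (0 : Fin 2) 1) g
  let G₁ : Polynomial (MvPolynomial (Fin 1) κ) := finSuccEquiv κ 1 g₂
  let G : Polynomial κ⟮f⟯ := G₁.map ψ.toRingHom
  have hG0 : G ≠ 0 := by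
    rw [Ne, Polynomial.map_eq_zero_iff hψ]
    simp only [G₁, g₂]
    rw [EmbeddingLike.map_eq_zero_iff]
    intro h1
    apply hg
    apply rename_injective (Equiv.swap (0 : Fin 2) 1) (Equiv.injective _)
    rw [h1, map_zero]
  have hGd : G.natDegree ≤ degreeOf 1 g := by
    refine (Polynomial.natDegree_map_le).trans ?_
    simp only [G₁]
    rw [natDegree_finSuccEquiv]
    have := degreeOf_rename_of_injective (p := g) (Equiv.injective (Equiv.swap (0 : Fin 2) 1)) 1
    simp only [Equiv.swap_apply_right] at this
    simp only [g₂]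
    rw [this]
  have hGβ : Polynomial.aeval β G = 0 := by
    have key : ∀ q : MvPolynomial (Fin 2) κ,
        Polynomial.aeval β ((finSuccEquiv κ 1 (rename (Equiv.swap (0 : Fin 2) 1) q)).map
          ψ.toRingHom) = aeval ![f, β] q := by
      intro q
      induction q using MvPolynomial.induction_on with
      | C c =>
        simp [finSuccEquiv_apply]
      | add p q hp hq =>
        simp only [map_add, Polynomial.map_add, hp, hq]
      | mul_X p i hp =>
        simp only [map_mul, Polynomial.map_mul, hp]
        congr 1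
        fin_cases i
        · have e1 : finSuccEquiv κ 1 (X (1 : Fin 2)) = Polynomial.C (X (0 : Fin 1)) :=
            finSuccEquiv_X_succ (R := κ) (n := 1) (j := 0)
          have e2 : (rename (Equiv.swap (0 : Fin 2) 1) (X (0 : Fin 2)) : MvPolynomial (Fin 2) κ) =
              X 1 := by
            rw [rename_X, Equiv.swap_apply_left]
          simp only [Fin.zero_eta, Fin.isValue, e2, e1, Polynomial.map_C, Polynomial.aeval_C,
            aeval_X]
          have e3 : ψ.toRingHom (X (0 : Fin 1)) = fE := by
            show ψ (X 0) = fE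
            simp only [ψ, aeval_X]
          rw [e3, hfE]
          rfl
        · have e1 : finSuccEquiv κ 1 (X (0 : Fin 2)) = Polynomial.X :=
            finSuccEquiv_X_zero (R := κ) (n := 1)
          have e2 : (rename (Equiv.swap (0 : Fin 2) 1) (X (1 : Fin 2)) : MvPolynomial (Fin 2) κ) =
              X 0 := by
            rw [rename_X, Equiv.swap_apply_right]
          simp only [Fin.mk_one, Fin.isValue, e2, e1, Polynomial.map_X, Polynomial.aeval_X,
            aeval_X]
          rfl
    rw [show G = (finSuccEquiv κ 1 (rename (Equiv.swap (0 : Fin 2) 1) g)).map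
          ψ.toRingHom from rfl, key, hev, h0, map_zero]
  have hint : IsIntegral κ⟮f⟯ β := IsAlgebraic.isIntegral ⟨G, hG0, hGβ⟩
  have htop : κ⟮f⟯⟮β⟯ = ⊤ := by
    have hXm : (RatFunc.X : RatFunc κ) ∈ κ⟮f⟯⟮β⟯ := by
      have e0 : (RatFunc.X : RatFunc κ) = aeval ![f, β] h := by
        rw [hev, hX, RatFunc.algebraMap_X]
      have hfm : f ∈ κ⟮f⟯⟮β⟯ := by
        have := (κ⟮f⟯⟮β⟯).algebraMap_mem fE
        rwa [hfE] at this
      have hβm : β ∈ κ⟮f⟯⟮β⟯ := mem_adjoin_simple_self _ β
      rw [e0]
      have hcm : ∀ c : κ, algebraMap κ (RatFunc κ) c ∈ κ⟮f⟯⟮β⟯ := by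
        intro c
        have := (κ⟮f⟯⟮β⟯).algebraMap_mem (algebraMap κ κ⟮f⟯ c)
        rwa [← IsScalarTower.algebraMap_apply] at this
      have hall : ∀ q : MvPolynomial (Fin 2) κ, aeval ![f, β] q ∈ κ⟮f⟯⟮β⟯ := by
        intro q
        induction q using MvPolynomial.induction_on with
        | C c => rw [aeval_C]; exact hcm c
        | add p q hp hq => rw [map_add]; exact add_mem hp hq
        | mul_X p i hp =>
          rw [map_mul, aeval_X]
          refine mul_mem hp ?_
          fin_cases i
          · exact hfm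
          · exact hβm
      exact hall h
    rw [eq_top_iff, ← RatFunc.IntermediateField.adjoin_X κ⟮f⟯]
    exact adjoin_simple_le_iff.2 hXm
  have h1 : Module.finrank κ⟮f⟯ (RatFunc κ) = (minpoly κ⟮f⟯ β).natDegree := by
    rw [← adjoin.finrank hint, htop]
    exact (IntermediateField.finrank_top').symm
  rw [← hfr, h1]
  refine le_trans ?_ hGd
  exact Polynomial.natDegree_le_natDegree (minpoly.degree_le_of_ne_zero _ _ hG0 hGβ)

end Pool.Agent.W352.DX.DGC
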